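import Pool.Agent.Helper346.SymDefsN
import Pool.Agent.Helper346.FinalZ

set_option autoImplicit false

namespace Pool.Agent.Results.MP_15d1b3_ag.RationalSymCube

open MvPolynomial Pool.Agent.Helper346.SymN

/-- There is a smooth complete intersection `X` of two quadrics in `ℙ⁴` over `ℚ` (a quartic
del Pezzo surface) which is `ℚ`-unirational and not `ℚ`-rational, while `Sym^d X` is `ℚ`-rational
for some `d > 1`. -/
theorem result : ∃ Q : Fin 2 → MvPolynomial (Fin 5) ℚ,
    IsSmoothQuadricPair Q ∧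
    (∀ d : ℕ, (powIdeal Q d).IsPrime) ∧
    IsUnirational (CoordRing Q 1) ∧
    ¬ IsRational (CoordRing Q 1) 2 ∧
    ∃ d : ℕ, 1 < d ∧ InvRational (permCoord Q d) (2 * d) := by
  obtain ⟨Q, h1, h2, h3, h4, d, hd, h5⟩ := Pool.Agent.Helper346.FZ.final_result
  exact ⟨Q, h1, h2, h3, h4, d, hd, h5⟩

end Pool.Agent.Results.MP_15d1b3_ag.RationalSymCube
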